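import Pool.Agent.Helper16.PL.St

/-! PL module Bu: bridges are lists of irreducible bridges -/

open Finset

namespace Pool.PLBu

open Pool.HW Pool.PL

theorem fac_exists (n : ℕ) : ∀ w : List Dir, w.length ≤ n → Br w →
    ∃ L : List (List Dir), (∀ p ∈ L, Irr p) ∧ L.flatten = w := by
  induction n with
  | zero =>
    intro w hn _
    refine ⟨[], by simp, ?_⟩
    rw [List.flatten_nil, List.length_eq_zero_iff.1 (Nat.le_zero.1 hn)]
  | succ n ih =>
    intro w hn h
    by_cases hw : w = []
    · exact ⟨[], by simp, by rw [hw]; rfl⟩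
    · obtain ⟨u, v, huv, hu, hv⟩ := exists_irr h hw
      have hul : 0 < u.length := List.length_pos_of_ne_nil hu.2.1
      have hlen : w.length = u.length + v.length := by rw [huv, List.length_append]
      obtain ⟨L, hL, hLv⟩ := ih v (by omega) hv
      refine ⟨u :: L, ?_, ?_⟩
      · intro p hp
        rcases List.mem_cons.1 hp with rfl | hp
        · exact hu
        · exact hL p hp
      · rw [List.flatten_cons, hLv, huv]

open Classical in
/-- the list of the irreducible factors of a bridge -/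
noncomputable def fac (w : List Dir) : List (List Dir) :=
  if h : Br w then (fac_exists w.length w le_rfl h).choose else []

theorem fac_spec {w : List Dir} (h : Br w) : (∀ p ∈ fac w, Irr p) ∧ (fac w).flatten = w := by
  unfold fac
  rw [dif_pos h]
  exact (fac_exists w.length w le_rfl h).choose_spec

theorem ht_fac {z : ℝ} {M : ℕ} {h0 : 0 ≤ z} {h1 : ∑ p ∈ wle Irr M, z ^ p.length ≤ 1}
    (L : List (List Dir)) (hL : ∀ p ∈ L, Irr p) :
    ((sysB z M h0 h1).ht L : ℤ) = Y L.flatten := by
  induction L with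
  | nil => simp
  | cons p L ih =>
    have hp : Irr p := hL p (by simp)
    have hY : 1 ≤ Y p := hp.1.ne_nil_Y hp.2.1
    rw [Sys.ht_cons, List.flatten_cons, Y_append, Nat.cast_add, ih fun q hq => hL q (by simp [hq])]
    congr 1
    show ((Y p).toNat : ℤ) = Y p
    exact Int.toNat_of_nonneg (by omega)

theorem wt_fac {z : ℝ} {M : ℕ} {h0 : 0 ≤ z} {h1 : ∑ p ∈ wle Irr M, z ^ p.length ≤ 1}
    (L : List (List Dir)) : (sysB z M h0 h1).wt L = z ^ L.flatten.length := by
  induction L with
  | nil => simp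
  | cons p L ih =>
    rw [Sys.wt_cons, List.flatten_cons, List.length_append, pow_add, ih]
    rfl

theorem fac_mem {z : ℝ} {M : ℕ} {h0 : 0 ≤ z} {h1 : ∑ p ∈ wle Irr M, z ^ p.length ≤ 1} {h : ℕ}
    {w : List Dir} (hw : w ∈ wle (BrH h) M) : fac w ∈ (sysB z M h0 h1).LH h := by
  obtain ⟨hlen, hbr, hY⟩ := mem_wle.1 hw
  obtain ⟨h2, h3⟩ := fac_spec hbr
  rw [Sys.mem_LH]
  constructor
  · intro p hp
    show p ∈ wle Irr M
    rw [mem_wle]
    refine ⟨?_, h2 p hp⟩
    have h4 : p.length ≤ (fac w).flatten.length := (List.sublist_flatten_of_mem hp).length_le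
    rw [h3] at h4
    omega
  · have h5 := ht_fac (z := z) (M := M) (h0 := h0) (h1 := h1) (fac w) h2
    rw [h3, hY] at h5
    exact_mod_cast h5

/-- Bu: bridges are lists of irreducible bridges -/
theorem bu : StBu := by
  intro z M h0 h1 h
  unfold bH Sys.u
  have hinj : Set.InjOn fac (wle (BrH h) M : Set (List Dir)) := by
    intro w hw w' hw' hh
    have h2 := (fac_spec (mem_wle.1 (Finset.mem_coe.1 hw)).2.1).2
    have h3 := (fac_spec (mem_wle.1 (Finset.mem_coe.1 hw')).2.1).2
    rw [← h2, ← h3]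
    exact congrArg List.flatten hh
  have h4 : ∑ w ∈ wle (BrH h) M, z ^ w.length =
      ∑ L ∈ (wle (BrH h) M).image fac, (sysB z M h0 h1).wt L := by
    rw [Finset.sum_image hinj]
    refine Finset.sum_congr rfl fun w hw => ?_
    rw [wt_fac, (fac_spec (mem_wle.1 hw).2.1).2]
  rw [h4]
  refine Finset.sum_le_sum_of_subset_of_nonneg ?_ fun L _ _ => (sysB z M h0 h1).wt_nonneg L
  intro L hL
  obtain ⟨w, hw, rfl⟩ := Finset.mem_image.1 hL
  exact fac_mem hw

end Pool.PLBu
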